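import Mathlib
import Pool.Agent.H.MP_395ab6_co.A

set_option autoImplicit false
open scoped ComplexOrder

namespace Pool.Agent.Results.MP_395ab6_co.Counter

theorem result : ∃ A : Matrix (Fin (40 + 1)) (Fin (40 + 1)) ℂ,
    A.PosSemidef ∧ (∀ i j, (A i j).im = 0) ∧
    A.permanent.im = 0 ∧
    (∀ k : Fin 40, (A.submatrix
        (Subtype.val : {j : Fin (40 + 1) // j ≠ 0 ∧ j ≠ k.succ} → Fin (40 + 1))
        Subtype.val).permanent.im = 0) ∧
    A.permanent.re < ∑ k : Fin 40, ‖A 0 k.succ‖ ^ 2 *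
      (A.submatrix
        (Subtype.val : {j : Fin (40 + 1) // j ≠ 0 ∧ j ≠ k.succ} → Fin (40 + 1))
        Subtype.val).permanent.re := by
  have h1 := Pool.Agent.H.MP_395ab6_co.perm_mat (M := 20)
  have h2 := Pool.Agent.H.MP_395ab6_co.perm_sub (M := 20)
  have h3 := Pool.Agent.H.MP_395ab6_co.mat_row (M := 20)
  have h4 := Pool.Agent.H.MP_395ab6_co.nn_ineq
  refine ⟨Pool.Agent.H.MP_395ab6_co.mat 20, Pool.Agent.H.MP_395ab6_co.mat_psd (M := 20),
    Pool.Agent.H.MP_395ab6_co.mat_real (M := 20), ?_, fun k => ?_, ?_⟩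
  · rw [h1]; simp
  · have := h2 k
    rw [show (20 - 1 : ℕ) = 19 from rfl] at this
    erw [this]; simp
  · have h5 : ∀ k : Fin 40, ‖Pool.Agent.H.MP_395ab6_co.mat 20 0 k.succ‖ ^ 2 *
        ((Pool.Agent.H.MP_395ab6_co.mat 20).submatrix
        (Subtype.val : {j : Fin (40 + 1) // j ≠ 0 ∧ j ≠ k.succ} → Fin (40 + 1))
        Subtype.val).permanent.re = (Pool.Agent.H.MP_395ab6_co.nn 1 19 : ℝ) +
          16 * Pool.Agent.H.MP_395ab6_co.nn 0 19 := by
      intro k
      have := h2 k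
      rw [show (20 - 1 : ℕ) = 19 from rfl] at this
      erw [this, h3 k]; simp
    rw [Finset.sum_congr rfl fun k _ => h5 k, h1]
    simp only [Finset.sum_const, Finset.card_univ, Fintype.card_fin, nsmul_eq_mul,
      Complex.natCast_re]
    exact_mod_cast h4

end Pool.Agent.Results.MP_395ab6_co.Counter
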